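import Mathlib

set_option autoImplicit false

namespace Pool.Agent.Results.MP_057a77_an.RioulFalse

open Complex

noncomputable section

/-- `e(x) = exp (2 π i x)` -/
def e (x : ℝ) : ℂ := Complex.exp (2 * Real.pi * Complex.I * x)

/-- The Zak transform `Zφ(t,ξ) = ∑_k φ(t+k) e^{2π i k ξ}`. -/
def zak (φ : ℝ → ℂ) (t ξ : ℝ) : ℂ := ∑' k : ℤ, φ (t + k) * e (k * ξ)

/-- The symbol `D(ξ) = ∑_k d_k e^{2π i k ξ}` of a finite family of coefficients. -/
def symbol (d : ℤ →₀ ℂ) (ξ : ℝ) : ℂ := d.sum fun k c => c * e (k * ξ)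

/-- `φ` is nonzero, continuous, compactly supported and satisfies the dilation equation
`φ(t/2) = ∑_k d_k φ(t-k)`. -/
def IsRefinable (φ : ℝ → ℂ) (d : ℤ →₀ ℂ) : Prop :=
  φ ≠ 0 ∧ Continuous φ ∧ HasCompactSupport φ ∧
    ∀ t : ℝ, φ (t / 2) = d.sum fun k c => c * φ (t - k)

/-- `D` has a pair of symmetric zeros. -/
def HasSymmetricZeros (d : ℤ →₀ ℂ) : Prop :=
  ∃ ξ₀ ∈ Set.Ico (0:ℝ) 1, symbol d ξ₀ = 0 ∧ symbol d (ξ₀ + 1 / 2) = 0

/-- the tent function `max (0, 3 - |t|)` -/
def tent (t : ℝ) : ℝ := max 0 (3 - |t|)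

def coef : ℤ →₀ ℂ :=
  Finsupp.single (-3) (1/2 : ℂ) + Finsupp.single 0 (1 : ℂ) + Finsupp.single 3 (1/2 : ℂ)

lemma tent_refine (t : ℝ) : tent (t / 2) = 1/2 * tent (t + 3) + tent t + 1/2 * tent (t - 3) := by
  unfold tent
  rcases le_total t (-6) with h1 | h1
  · rw [abs_of_nonpos (by linarith : t / 2 ≤ 0), abs_of_nonpos (by linarith : t + 3 ≤ 0),
      abs_of_nonpos (by linarith : t ≤ 0), abs_of_nonpos (by linarith : t - 3 ≤ 0),
      max_eq_left (by linarith), max_eq_left (by linarith), max_eq_left (by linarith),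
      max_eq_left (by linarith)]
    ring
  rcases le_total t (-3) with h2 | h2
  · rw [abs_of_nonpos (by linarith : t / 2 ≤ 0), abs_of_nonpos (by linarith : t + 3 ≤ 0),
      abs_of_nonpos (by linarith : t ≤ 0), abs_of_nonpos (by linarith : t - 3 ≤ 0),
      max_eq_right (by linarith), max_eq_right (by linarith), max_eq_left (by linarith),
      max_eq_left (by linarith)]
    ring
  rcases le_total t 0 with h3 | h3
  · rw [abs_of_nonpos (by linarith : t / 2 ≤ 0), abs_of_nonneg (by linarith : 0 ≤ t + 3),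
      abs_of_nonpos (by linarith : t ≤ 0), abs_of_nonpos (by linarith : t - 3 ≤ 0),
      max_eq_right (by linarith), max_eq_right (by linarith), max_eq_right (by linarith),
      max_eq_left (by linarith)]
    ring
  rcases le_total t 3 with h4 | h4
  · rw [abs_of_nonneg (by linarith : 0 ≤ t / 2), abs_of_nonneg (by linarith : 0 ≤ t + 3),
      abs_of_nonneg (by linarith : 0 ≤ t), abs_of_nonpos (by linarith : t - 3 ≤ 0),
      max_eq_right (by linarith), max_eq_left (by linarith), max_eq_right (by linarith),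
      max_eq_right (by linarith)]
    ring
  rcases le_total t 6 with h5 | h5
  · rw [abs_of_nonneg (by linarith : 0 ≤ t / 2), abs_of_nonneg (by linarith : 0 ≤ t + 3),
      abs_of_nonneg (by linarith : 0 ≤ t), abs_of_nonneg (by linarith : 0 ≤ t - 3),
      max_eq_right (by linarith), max_eq_left (by linarith), max_eq_left (by linarith),
      max_eq_right (by linarith)]
    ring
  · rw [abs_of_nonneg (by linarith : 0 ≤ t / 2), abs_of_nonneg (by linarith : 0 ≤ t + 3),
      abs_of_nonneg (by linarith : 0 ≤ t), abs_of_nonneg (by linarith : 0 ≤ t - 3),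
      max_eq_left (by linarith), max_eq_left (by linarith), max_eq_left (by linarith),
      max_eq_left (by linarith)]
    ring

lemma coef_sum (g : ℤ → ℂ) :
    (coef.sum fun k c => c * g k) = 1/2 * g (-3) + g 0 + 1/2 * g 3 := by
  unfold coef
  rw [Finsupp.sum_add_index' (by intro a; ring) (by intro a b c; ring),
    Finsupp.sum_add_index' (by intro a; ring) (by intro a b c; ring),
    Finsupp.sum_single_index (by ring), Finsupp.sum_single_index (by ring),
    Finsupp.sum_single_index (by ring)]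
  ring

lemma e_add (x y : ℝ) : e (x + y) = e x * e y := by
  unfold e
  rw [← Complex.exp_add]
  congr 1
  push_cast
  ring

lemma e_ne (x : ℝ) : e x ≠ 0 := Complex.exp_ne_zero _

lemma e_int (n : ℤ) : e n = 1 := by
  unfold e
  rw [Complex.exp_eq_one_iff]
  exact ⟨n, by push_cast; ring⟩

lemma e_half (x : ℝ) : e (x + 1 / 2) = - e x := by
  rw [e_add]
  have : e (1/2) = -1 := by
    unfold e
    rw [← Complex.exp_pi_mul_I]
    congr 1
    push_cast
    ring
  rw [this]; ring

lemma no_sym : ¬ HasSymmetricZeros coef := by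
  rintro ⟨x, _, h1, h2⟩
  unfold symbol at h1 h2
  rw [coef_sum] at h1 h2
  have e1 : e (((-3:ℤ):ℝ) * (x + 1/2)) = - e (((-3:ℤ):ℝ) * x) := by
    have : ((-3:ℤ):ℝ) * (x + 1/2) = (((-3:ℤ):ℝ) * x + 1/2) + ((-2:ℤ):ℝ) := by push_cast; ring
    rw [this, e_add, e_int, e_half]; ring
  have e2 : e (((3:ℤ):ℝ) * (x + 1/2)) = - e (((3:ℤ):ℝ) * x) := by
    have : ((3:ℤ):ℝ) * (x + 1/2) = (((3:ℤ):ℝ) * x + 1/2) + ((1:ℤ):ℝ) := by push_cast; ring
    rw [this, e_add, e_int, e_half]; ring
  have e3 : ∀ y : ℝ, e (((0:ℤ):ℝ) * y) = 1 := by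
    intro y
    have : ((0:ℤ):ℝ) * y = ((0:ℤ):ℝ) := by push_cast; ring
    rw [this, e_int]
  rw [e1, e2, e3] at h2
  rw [e3] at h1
  have : (2:ℂ) = 0 := by linear_combination h1 + h2
  norm_num at this

lemma tent_continuous : Continuous tent := by
  unfold tent
  fun_prop

lemma tent_zero {t : ℝ} (h : 3 ≤ |t|) : tent t = 0 := by
  unfold tent
  exact max_eq_left (by linarith)

def phi (t : ℝ) : ℂ := (tent t : ℂ)

lemma refinable : IsRefinable phi coef := by
  refine ⟨?_, ?_, ?_, ?_⟩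
  · intro h
    have := congrFun h 0
    simp [phi, tent] at this
  · exact Complex.continuous_ofReal.comp tent_continuous
  · apply HasCompactSupport.intro (K := Set.Icc (-3) 3) isCompact_Icc
    intro x hx
    unfold phi
    rw [tent_zero, Complex.ofReal_zero]
    by_contra hlt
    rw [not_le] at hlt
    rw [abs_lt] at hlt
    exact hx ⟨hlt.1.le, hlt.2.le⟩
  · intro t
    rw [coef_sum]
    unfold phi
    rw [tent_refine]
    push_cast
    ring_nf

lemma omega_rel : 1 + e (1/3) + e (1/3) ^ 2 = 0 := by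
  have h3 : e (1/3) ^ 3 = 1 := by
    have : e (1/3) ^ 3 = e ((1:ℤ):ℝ) := by
      have : ((1:ℤ):ℝ) = 1/3 + 1/3 + 1/3 := by norm_num
      rw [this, e_add, e_add]; ring
    rw [this, e_int]
  have hne : e (1/3) ≠ 1 := by
    intro h
    unfold e at h
    rw [Complex.exp_eq_one_iff] at h
    obtain ⟨n, hn⟩ := h
    have hpi : (2 * (Real.pi:ℂ) * Complex.I) ≠ 0 := by
      simp [Real.pi_ne_zero]
    have h1 : ((1/3 : ℝ) : ℂ) = n := by
      have : (2 * (Real.pi:ℂ) * Complex.I) * ((1/3 : ℝ) : ℂ) = (2 * (Real.pi:ℂ) * Complex.I) * n := by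
        rw [hn]; ring
      exact mul_left_cancel₀ hpi this
    have h2 : (1/3 : ℝ) = n := by exact_mod_cast h1
    have h4 : (1 : ℝ) = 3 * n := by linarith
    have h5 : (1 : ℤ) = 3 * n := by exact_mod_cast h4
    omega
  have : (e (1/3) - 1) * (1 + e (1/3) + e (1/3) ^ 2) = 0 := by
    linear_combination h3
  rcases mul_eq_zero.1 this with h | h
  · exact absurd (sub_eq_zero.1 h) hne
  · exact h

lemma zak_unit (t : ℝ) (h0 : 0 ≤ t) (h1 : t < 1) : zak phi t (1/3) = 0 := by
  unfold zak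
  rw [tsum_eq_sum (s := Finset.Icc (-3) 2)]
  · have hs : (Finset.Icc (-3:ℤ) 2) = {-3, -2, -1, 0, 1, 2} := by decide
    rw [hs]
    have hw := omega_rel
    set w := e (1/3) with hwdef
    have h3 : w ^ 3 = 1 := by linear_combination (w - 1) * hw
    have em3 : e (((-3:ℤ):ℝ) * (1/3)) = 1 := by
      have : ((-3:ℤ):ℝ) * (1/3) = ((-1:ℤ):ℝ) := by push_cast; norm_num
      rw [this, e_int]
    have em2 : e (((-2:ℤ):ℝ) * (1/3)) = w := by
      have : ((-2:ℤ):ℝ) * (1/3) = 1/3 + ((-1:ℤ):ℝ) := by push_cast; norm_num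
      rw [this, e_add, e_int, mul_one]
    have em1 : e (((-1:ℤ):ℝ) * (1/3)) = w ^ 2 := by
      have : ((-1:ℤ):ℝ) * (1/3) = 1/3 + 1/3 + ((-1:ℤ):ℝ) := by push_cast; norm_num
      rw [this, e_add, e_add, e_int, mul_one, sq]
    have e0 : e (((0:ℤ):ℝ) * (1/3)) = 1 := by
      have : ((0:ℤ):ℝ) * (1/3) = ((0:ℤ):ℝ) := by push_cast; norm_num
      rw [this, e_int]
    have e1 : e (((1:ℤ):ℝ) * (1/3)) = w := by
      have : ((1:ℤ):ℝ) * (1/3) = 1/3 := by push_cast; norm_num
      rw [this]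
    have e2 : e (((2:ℤ):ℝ) * (1/3)) = w ^ 2 := by
      have : ((2:ℤ):ℝ) * (1/3) = 1/3 + 1/3 := by push_cast; norm_num
      rw [this, e_add, sq]
    rw [Finset.sum_insert (by decide), Finset.sum_insert (by decide), Finset.sum_insert (by decide),
      Finset.sum_insert (by decide), Finset.sum_insert (by decide), Finset.sum_singleton,
      em3, em2, em1, e0, e1, e2]
    have p1 : tent (t + ((-3:ℤ):ℝ)) = t := by
      unfold tent
      push_cast
      rw [abs_of_nonpos (by linarith), max_eq_right (by linarith)]; ring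
    have p2 : tent (t + ((-2:ℤ):ℝ)) = 1 + t := by
      unfold tent
      push_cast
      rw [abs_of_nonpos (by linarith), max_eq_right (by linarith)]; ring
    have p3 : tent (t + ((-1:ℤ):ℝ)) = 2 + t := by
      unfold tent
      push_cast
      rw [abs_of_nonpos (by linarith), max_eq_right (by linarith)]; ring
    have p4 : tent (t + ((0:ℤ):ℝ)) = 3 - t := by
      unfold tent
      push_cast
      rw [abs_of_nonneg (by linarith), max_eq_right (by linarith)]; ring
    have p5 : tent (t + ((1:ℤ):ℝ)) = 2 - t := by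
      unfold tent
      push_cast
      rw [abs_of_nonneg (by linarith), max_eq_right (by linarith)]; ring
    have p6 : tent (t + ((2:ℤ):ℝ)) = 1 - t := by
      unfold tent
      push_cast
      rw [abs_of_nonneg (by linarith), max_eq_right (by linarith)]; ring
    unfold phi
    rw [p1, p2, p3, p4, p5, p6]
    push_cast
    linear_combination (3:ℂ) * hw
  · intro k hk
    have : phi (t + k) = 0 := by
      unfold phi
      rw [tent_zero, Complex.ofReal_zero]
      rw [Finset.mem_Icc, not_and_or, not_le, not_le] at hk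
      rcases hk with hk | hk
      · have : (k:ℝ) ≤ -4 := by exact_mod_cast (by omega : k ≤ -4)
        rw [abs_of_nonpos (by linarith)]; linarith
      · have : (3:ℝ) ≤ k := by exact_mod_cast (by omega : 3 ≤ k)
        rw [abs_of_nonneg (by linarith)]; linarith
    rw [this, zero_mul]

lemma zak_all (t : ℝ) : zak phi t (1/3) = 0 := by
  have h := zak_unit (Int.fract t) (Int.fract_nonneg t) (Int.fract_lt_one t)
  unfold zak at h ⊢
  rw [← (Equiv.subRight ⌊t⌋).tsum_eq]
  have : ∀ k : ℤ, phi (t + ((Equiv.subRight ⌊t⌋ k : ℤ) : ℝ)) * e (((Equiv.subRight ⌊t⌋ k : ℤ) : ℝ) * (1/3))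
      = (phi (Int.fract t + k) * e (k * (1/3))) * e (-(⌊t⌋ : ℝ) * (1/3)) := by
    intro k
    rw [Equiv.subRight_apply]
    have h1 : t + ((k - ⌊t⌋ : ℤ) : ℝ) = Int.fract t + k := by
      rw [Int.fract]; push_cast; ring
    have h2 : ((k - ⌊t⌋ : ℤ) : ℝ) * (1/3) = k * (1/3) + -(⌊t⌋ : ℝ) * (1/3) := by
      push_cast; ring
    rw [h1, h2, e_add]; ring
  rw [tsum_congr this, tsum_mul_right, h, zero_mul]

/-- Rioul's conjecture is false: there are a continuous, compactly supported, nonnegative, nonzero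
refinable `φ` and coefficients `d` with `D(0) = 2`, without a pair of symmetric zeros, such that
for every `t` the function `ξ ↦ Zφ(t,ξ)` has a real zero (so that no `t₀` is as predicted). -/
theorem result :
    ∃ (φ : ℝ → ℂ) (d : ℤ →₀ ℂ), IsRefinable φ d ∧ ¬ HasSymmetricZeros d ∧
      (∀ t, ∃ r : ℝ, 0 ≤ r ∧ φ t = r) ∧ symbol d 0 = 2 ∧
      (∀ t : ℝ, ∃ ξ : ℝ, zak φ t ξ = 0) ∧
      ¬ ∃ t₀ : ℝ, 0 < ⨅ ξ : ℝ, ‖zak φ t₀ ξ‖ := by
  refine ⟨phi, coef, refinable, no_sym, ?_, ?_, fun t => ⟨1/3, zak_all t⟩, ?_⟩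
  · intro t
    exact ⟨tent t, le_max_left _ _, rfl⟩
  · unfold symbol
    rw [coef_sum]
    have : ∀ y : ℝ, e (y * 0) = 1 := by
      intro y
      have : y * 0 = ((0:ℤ):ℝ) := by push_cast; ring
      rw [this, e_int]
    rw [this, this, this]; norm_num
  · rintro ⟨t, ht⟩
    have : ⨅ ξ : ℝ, ‖zak phi t ξ‖ ≤ ‖zak phi t (1/3)‖ :=
      ciInf_le ⟨0, by rintro _ ⟨x, rfl⟩; exact norm_nonneg _⟩ _
    rw [zak_all, norm_zero] at this
    linarith

end

end Pool.Agent.Results.MP_057a77_an.RioulFalse
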